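import Pool.Agent.K4H43.TL.Imp

/-!
# Blocks of `L_p(μ)` given by disjoint sets
-/

set_option autoImplicit false
open MeasureTheory Filter Topology Finset
open scoped ENNReal

namespace Pool.Agent.K4H43.TL
open Pool.Agent.Y280 Pool.Agent.Y825.RK

variable {Ω : Type*} [MeasurableSpace Ω] {μ : Measure Ω} {p : ℝ≥0∞} [Fact (1 ≤ p)]

section blk

variable {I : Type} [Fintype I] {A : I → Set Ω}

lemma vecB_ae (hA : ∀ i, MeasurableSet (A i)) (hAt : ∀ i, μ (A i) ≠ ∞) (u : I → ℂ) :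
    (vecB (fun i => eV ℂ p (hA i) (hAt i)) u : Lp ℂ p μ) =ᵐ[μ]
      fun ω => ∑ i, (A i).indicator
        (fun _ => u i * ((μ.real (A i) ^ (-(1 / p.toReal)) : ℝ) : ℂ)) ω := by
  unfold vecB
  refine (Lp.coeFn_finsetSum _ _).trans ?_
  have h1 : ∀ᵐ ω ∂μ, ∀ i, (u i • eV ℂ p (hA i) (hAt i) : Lp ℂ p μ) ω =
      (A i).indicator (fun _ => u i * ((μ.real (A i) ^ (-(1 / p.toReal)) : ℝ) : ℂ)) ω := by
    rw [ae_all_iff]
    intro i
    have h3 : (eV ℂ p (hA i) (hAt i) : Lp ℂ p μ) =ᵐ[μ] (A i).indicator fun _ =>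
      (((μ.real (A i) ^ (-(1 / p.toReal)) : ℝ)) : ℂ) := indicatorConstLp_coeFn
    filter_upwards [Lp.coeFn_smul (u i) (eV ℂ p (hA i) (hAt i) : Lp ℂ p μ), h3] with ω e1 e2
    rw [e1, Pi.smul_apply, e2, smul_eq_mul]
    by_cases h : ω ∈ A i
    · rw [Set.indicator_of_mem h, Set.indicator_of_mem h]
    · rw [Set.indicator_of_notMem h, Set.indicator_of_notMem h, mul_zero]
  filter_upwards [h1] with ω h2
  rw [Finset.sum_apply]
  exact sum_congr rfl fun i _ => h2 i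

lemma sum_ind_rpow (hd : Pairwise (Function.onFun Disjoint A)) {P : ℝ} (hP : P ≠ 0) (v : I → ℂ)
    (ω : Ω) : ‖∑ i, (A i).indicator (fun _ => v i) ω‖ ^ P =
      ∑ i, (A i).indicator (fun _ => ‖v i‖ ^ P) ω := by
  classical
  by_cases h : ∃ i, ω ∈ A i
  · obtain ⟨i, hi⟩ := h
    have hj : ∀ j, j ≠ i → ω ∉ A j := fun j hj hω =>
      Set.disjoint_left.1 (hd hj) hω hi
    rw [sum_eq_single i, sum_eq_single i, Set.indicator_of_mem hi, Set.indicator_of_mem hi]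
    · intro j _ h1
      rw [Set.indicator_of_notMem (hj j h1)]
    · intro h'; exact absurd (mem_univ _) h'
    · intro j _ h1
      rw [Set.indicator_of_notMem (hj j h1)]
    · intro h'; exact absurd (mem_univ _) h'
  · push Not at h
    rw [sum_eq_zero, sum_eq_zero, norm_zero, Real.zero_rpow hP]
    · intro i _
      rw [Set.indicator_of_notMem (h i)]
    · intro i _
      rw [Set.indicator_of_notMem (h i)]

lemma norm_vecB (h1 : 1 < p.toReal) (htop : p ≠ ∞) (hA : ∀ i, MeasurableSet (A i))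
    (hA0 : ∀ i, μ (A i) ≠ 0) (hAt : ∀ i, μ (A i) ≠ ∞)
    (hd : Pairwise (Function.onFun Disjoint A)) (u : I → ℂ) :
    ‖(vecB (fun i => eV ℂ p (hA i) (hAt i)) u : Lp ℂ p μ)‖ ^ p.toReal =
      ∑ i, ‖u i‖ ^ p.toReal := by
  have hp0 : 0 < p.toReal := by linarith
  rw [norm_rpow h1 htop]
  have h2 : ∫ ω, ‖(vecB (fun i => eV ℂ p (hA i) (hAt i)) u : Lp ℂ p μ) ω‖ ^ p.toReal ∂μ =
      ∫ ω, ∑ i, (A i).indicator (fun _ => ‖u i‖ ^ p.toReal * (μ.real (A i))⁻¹) ω ∂μ := by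
    apply integral_congr_ae
    filter_upwards [vecB_ae (p := p) hA hAt u] with ω h3
    rw [h3, sum_ind_rpow hd hp0.ne']
    refine sum_congr rfl fun i _ => ?_
    congr 1
    ext _
    have hγ := real_pos (hA0 i) (hAt i)
    rw [norm_mul, Complex.norm_real, Real.norm_of_nonneg (by positivity),
      Real.mul_rpow (norm_nonneg _) (by positivity), ← Real.rpow_mul hγ.le]
    congr 1
    rw [neg_mul, one_div_mul_cancel hp0.ne', Real.rpow_neg_one]
  rw [h2, integral_finsetSum]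
  · refine sum_congr rfl fun i _ => ?_
    have hγ := real_pos (hA0 i) (hAt i)
    rw [integral_indicator (hA i), setIntegral_const, smul_eq_mul]
    field_simp
  · intro i _
    exact (integrable_indicator_iff (hA i)).2 (integrableOn_const (hAt i))

/-- Hölder on a set. -/
lemma eF_rpow_le (h1 : 1 < p.toReal) (htop : p ≠ ∞) {q : ℝ} (hpq : p.toReal.HolderConjugate q)
    {B : Set Ω} (hB0 : μ B ≠ 0) (hBt : μ B ≠ ∞) (x : Lp ℂ p μ) :
    ‖eF ℂ h1 htop hpq hB0 hBt x‖ ^ p.toReal ≤ ∫ ω in B, ‖x ω‖ ^ p.toReal ∂μ := by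
  have hp0 : 0 < p.toReal := by linarith
  obtain ⟨C, hC⟩ := exists_good hpq
  have hi := integrable_rpow h1 htop x
  have h2 := (loc hpq hC hB0 hBt (x := x) (Lp.aestronglyMeasurable x).restrict
    hi.integrableOn rfl rfl rfl rfl).1
  have h0 : 0 ≤ ∫ ω in B, ‖x ω‖ ^ p.toReal ∂μ := integral_nonneg fun ω => by positivity
  have h3 : ‖eF ℂ h1 htop hpq hB0 hBt x‖ ≤ (∫ ω in B, ‖x ω‖ ^ p.toReal ∂μ) ^ (1 / p.toReal) := by
    rw [eF_apply]
    exact h2
  calc ‖eF ℂ h1 htop hpq hB0 hBt x‖ ^ p.toReal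
      ≤ ((∫ ω in B, ‖x ω‖ ^ p.toReal ∂μ) ^ (1 / p.toReal)) ^ p.toReal :=
        Real.rpow_le_rpow (norm_nonneg _) h3 hp0.le
    _ = _ := by
        rw [← Real.rpow_mul h0, one_div_mul_cancel hp0.ne', Real.rpow_one]

lemma sum_eF_le (h1 : 1 < p.toReal) (htop : p ≠ ∞) {q : ℝ} (hpq : p.toReal.HolderConjugate q)
    (hA : ∀ i, MeasurableSet (A i))
    (hA0 : ∀ i, μ (A i) ≠ 0) (hAt : ∀ i, μ (A i) ≠ ∞)
    (hd : Pairwise (Function.onFun Disjoint A)) (x : Lp ℂ p μ) :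
    ∑ i, ‖eF ℂ h1 htop hpq (hA0 i) (hAt i) x‖ ^ p.toReal ≤ ‖x‖ ^ p.toReal := by
  have hi := integrable_rpow h1 htop x
  refine (sum_le_sum fun i _ => eF_rpow_le h1 htop hpq (hA0 i) (hAt i) x).trans ?_
  rw [norm_rpow h1 htop, ← integral_iUnion_fintype hA hd fun i => hi.integrableOn]
  exact setIntegral_le_integral hi (ae_of_all _ fun ω => by positivity)

theorem blk_sets (h1 : 1 < p.toReal) (htop : p ≠ ∞) {q : ℝ} (hpq : p.toReal.HolderConjugate q)
    (hA : ∀ i, MeasurableSet (A i))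
    (hA0 : ∀ i, μ (A i) ≠ 0) (hAt : ∀ i, μ (A i) ≠ ∞)
    (hd : Pairwise (Function.onFun Disjoint A)) :
    Blk p.toReal (fun i => eV ℂ p (hA i) (hAt i) : I → Lp ℂ p μ)
      (fun i => eF ℂ h1 htop hpq (hA0 i) (hAt i)) where
  he u := (norm_vecB h1 htop hA hA0 hAt hd u).le
  hk x := sum_eF_le h1 htop hpq hA hA0 hAt hd x
  hkv u i := by
    classical
    rw [map_sum, sum_eq_single i]
    · rw [map_smul, eF_eV_self h1 htop hpq (hA i), smul_eq_mul, mul_one]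
    · intro j _ hj
      rw [map_smul, eF_eV_disj h1 htop hpq (hA i) (hA0 i) (hAt i) (hA j) (hAt j) (hd hj.symm),
        smul_zero]
    · intro h'; exact absurd (mem_univ _) h'

end blk

end Pool.Agent.K4H43.TL
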