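import Pool.Agent.K4H43.TL.Simp

/-!
# The dual of `L_p(μ)`: functionals given by step functions are dense
-/

set_option autoImplicit false
open MeasureTheory Filter Topology Finset TopologicalSpace
open scoped ENNReal

namespace Pool.Agent.K4H43.TL
open Pool.Agent.Y280 Pool.Agent.Y825.RK

variable {Ω : Type*} [MeasurableSpace Ω] {μ : Measure Ω}

section vec
variable {P : ℝ≥0∞} [Fact (1 ≤ P)] {I : Type} [Fintype I] {A : I → Set Ω}

lemma approx_vec (hA : ∀ i, MeasurableSet (A i)) (hA0 : ∀ i, μ (A i) ≠ 0)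
    (hAt : ∀ i, μ (A i) ≠ ∞) (x : Lp ℂ P μ) {g : SimpleFunc Ω ℂ} {ε : ℝ} (hε : 0 ≤ ε)
    (hx : eLpNorm ((x : Ω → ℂ) - (g : Ω → ℂ)) P μ ≤ ENNReal.ofReal ε) {c : I → ℂ}
    (hg : (g : Ω → ℂ) =ᵐ[μ] fun ω => ∑ i, (A i).indicator (fun _ => c i) ω) :
    ∃ u : I → ℂ, ‖vecB (fun i => eV ℂ P (hA i) (hAt i)) u - x‖ ≤ ε := by
  refine ⟨fun i => c i * ((μ.real (A i) ^ (1 / P.toReal) : ℝ) : ℂ), ?_⟩
  rw [norm_sub_rev, Lp.norm_def]
  refine ENNReal.toReal_le_of_le_ofReal hε ?_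
  refine le_trans (le_of_eq (eLpNorm_congr_ae ?_)) hx
  filter_upwards [Lp.coeFn_sub x (vecB (fun i => eV ℂ P (hA i) (hAt i))
    (fun i => c i * ((μ.real (A i) ^ (1 / P.toReal) : ℝ) : ℂ))), hg,
    vecB_ae (p := P) hA hAt (fun i => c i * ((μ.real (A i) ^ (1 / P.toReal) : ℝ) : ℂ))]
    with ω h1 h2 h3
  rw [h1, Pi.sub_apply, Pi.sub_apply, h2, h3]
  congr 1
  refine sum_congr rfl fun i _ => ?_
  congr 1
  ext _
  have hγ := real_pos (hA0 i) (hAt i)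
  rw [mul_assoc, ← Complex.ofReal_mul, ← Real.rpow_add hγ, add_neg_cancel, Real.rpow_zero,
    Complex.ofReal_one, mul_one]

end vec

section dual
variable {p Q : ℝ≥0∞} [Fact (1 ≤ p)] [Fact (1 ≤ Q)] [Q.HolderConjugate p]

/-- The functional with a density. -/
noncomputable def pr (μ : Measure Ω) (p Q : ℝ≥0∞) [Fact (1 ≤ p)] [Fact (1 ≤ Q)]
    [Q.HolderConjugate p] : Lp ℂ Q μ →L[ℂ] StrongDual ℂ (Lp ℂ p μ) :=
  (ContinuousLinearMap.mul ℂ ℂ).lpPairing μ Q p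

lemma pr_apply (h : Lp ℂ Q μ) (g : Lp ℂ p μ) : pr μ p Q h g = ∫ ω, h ω * g ω ∂μ :=
  (ContinuousLinearMap.mul ℂ ℂ).lpPairing_eq_integral h g

lemma norm_pr_le (h : Lp ℂ Q μ) : ‖pr μ p Q h‖ ≤ ‖h‖ := by
  refine ContinuousLinearMap.opNorm_le_bound _ (norm_nonneg _) fun g => ?_
  have h1 : pr μ p Q h g = ∫ ω, ((ContinuousLinearMap.mul ℂ ℂ).holder 1 h g) ω ∂μ := by
    rw [pr_apply]
    exact (integral_congr_ae ((ContinuousLinearMap.mul ℂ ℂ).coeFn_holder h g)).symm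
  rw [h1]
  have h2 : ‖∫ ω, ((ContinuousLinearMap.mul ℂ ℂ).holder 1 h g) ω ∂μ‖ ≤
      ‖(ContinuousLinearMap.mul ℂ ℂ).holder 1 h g‖ := by
    rw [← L1.integral_eq_integral]
    exact L1.norm_integral_le _
  refine h2.trans (((ContinuousLinearMap.mul ℂ ℂ).norm_holder_apply_apply_le h g).trans ?_)
  have h3 : ‖ContinuousLinearMap.mul ℂ ℂ‖ ≤ 1 := ContinuousLinearMap.opNorm_mul_le ℂ ℂ
  exact mul_le_mul_of_nonneg_right (mul_le_of_le_one_left (norm_nonneg _) h3) (norm_nonneg _)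

/-- Functionals with a density are dense. -/
theorem pr_dense (h1 : 1 < p.toReal) (htop : p ≠ ∞) (hQt : Q ≠ ∞)
    (hpq : p.toReal.HolderConjugate Q.toReal) (y : StrongDual ℂ (Lp ℂ p μ)) {ε : ℝ}
    (hε : 0 < ε) : ∃ h : Lp ℂ Q μ, ‖pr μ p Q h - y‖ ≤ ε := by
  obtain ⟨g0, hg0, z, hz, hgz⟩ := Pool.Agent.R284.AS.bp y ε hε
  by_cases h0 : g0 = 0
  · exact ⟨0, by rw [map_zero, ← h0]; exact hg0⟩
  have hc : 0 < ‖g0‖ := norm_pos_iff.2 h0
  set f : StrongDual ℂ (Lp ℂ p μ) := (((‖g0‖⁻¹ : ℝ)) : ℂ) • g0 with hf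
  have hfn : ‖f‖ = 1 := by
    rw [hf, norm_smul, Complex.norm_real, Real.norm_of_nonneg (by positivity),
      inv_mul_cancel₀ hc.ne']
  have hfz : f z = 1 := by
    rw [hf, _root_.smul_apply, hgz, smul_eq_mul]
    simp only [Complex.coe_algebraMap, ← Complex.ofReal_mul]
    norm_num
    exact_mod_cast inv_mul_cancel₀ hc.ne'
  have hzn : ‖z‖ = 1 := by
    apply le_antisymm hz
    have := f.le_opNorm z
    rwa [hfz, hfn, norm_one, one_mul] at this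
  have hnorm := norming h1 htop hzn hfn hfz
  have hmeas : AEStronglyMeasurable (fun ω => J p.toReal ((z : Ω → ℂ) ω)) μ :=
    ((measurable_J p.toReal).comp_aemeasurable
      (Lp.aestronglyMeasurable z).aemeasurable).aestronglyMeasurable
  have hq0 : Q ≠ 0 := (zero_lt_one.trans_le (Fact.out : 1 ≤ Q)).ne'
  have hmem : MemLp (fun ω => J p.toReal ((z : Ω → ℂ) ω)) Q μ := by
    rw [← integrable_norm_rpow_iff hmeas hq0 hQt]
    simp only [norm_J_rpow hpq]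
    exact integrable_rpow h1 htop z
  refine ⟨((‖g0‖ : ℝ) : ℂ) • hmem.toLp _, ?_⟩
  have e : pr μ p Q (((‖g0‖ : ℝ) : ℂ) • hmem.toLp _) = g0 := by
    ext g
    rw [map_smul, _root_.smul_apply, pr_apply]
    have e1 : ∫ ω, (hmem.toLp _ : Lp ℂ Q μ) ω * g ω ∂μ = f g := by
      rw [hnorm]
      apply integral_congr_ae
      filter_upwards [hmem.coeFn_toLp] with ω hω
      rw [hω]
    rw [e1, hf, _root_.smul_apply, smul_smul, ← Complex.ofReal_mul, mul_inv_cancel₀ hc.ne',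
      Complex.ofReal_one, one_smul]
  rw [e]
  exact hg0

lemma pr_eV (h1 : 1 < p.toReal) (htop : p ≠ ∞)
    (hpq : p.toReal.HolderConjugate Q.toReal) {B : Set Ω} (hB : MeasurableSet B)
    (hB0 : μ B ≠ 0) (hBt : μ B ≠ ∞) :
    pr μ p Q (eV ℂ Q hB hBt) = eF ℂ h1 htop hpq hB0 hBt := by
  ext g
  rw [pr_apply, eF_apply]
  have h2 : ∫ ω, (eV ℂ Q hB hBt : Lp ℂ Q μ) ω * g ω ∂μ =
      ∫ ω, B.indicator (fun ω => (((μ.real B ^ (-(1 / Q.toReal)) : ℝ)) : ℂ) * g ω) ω ∂μ := by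
    apply integral_congr_ae
    have h3 : (eV ℂ Q hB hBt : Lp ℂ Q μ) =ᵐ[μ] B.indicator fun _ =>
      (((μ.real B ^ (-(1 / Q.toReal)) : ℝ)) : ℂ) := indicatorConstLp_coeFn
    filter_upwards [h3] with ω h4
    rw [h4]
    by_cases h5 : ω ∈ B
    · rw [Set.indicator_of_mem h5, Set.indicator_of_mem h5]
    · rw [Set.indicator_of_notMem h5, Set.indicator_of_notMem h5, zero_mul]
  rw [h2, integral_indicator hB, integral_const_mul]
  rfl

lemma pr_vecB (h1 : 1 < p.toReal) (htop : p ≠ ∞)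
    (hpq : p.toReal.HolderConjugate Q.toReal) {I : Type} [Fintype I] {A : I → Set Ω}
    (hA : ∀ i, MeasurableSet (A i)) (hA0 : ∀ i, μ (A i) ≠ 0)
    (hAt : ∀ i, μ (A i) ≠ ∞) (u : I → ℂ) :
    pr μ p Q (vecB (fun i => eV ℂ Q (hA i) (hAt i)) u) =
      fnlB (fun i => eF ℂ h1 htop hpq (hA0 i) (hAt i)) u := by
  unfold vecB fnlB
  rw [map_sum]
  refine sum_congr rfl fun i _ => ?_
  rw [map_smul, pr_eV h1 htop hpq (hA i) (hA0 i) (hAt i)]

end dual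

end Pool.Agent.K4H43.TL
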