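import Pool.Agent.K4H43.TL.Inf

/-!
# Typical contractions of `L_p(μ)`
-/

set_option autoImplicit false
open MeasureTheory Filter Topology Finset TopologicalSpace
open scoped ENNReal

namespace Pool.Agent.K4H43.TL
open Pool.Agent.Y280 Pool.Agent.Y825.RK

variable {Ω : Type*} [MeasurableSpace Ω] {μ : Measure Ω}

theorem sep_dual {p Q : ℝ≥0∞} [Fact (1 ≤ p)] [Fact (1 ≤ Q)] [Q.HolderConjugate p]
    (h1 : 1 < p.toReal) (htop : p ≠ ∞) (hQt : Q ≠ ∞)
    (hpq : p.toReal.HolderConjugate Q.toReal) [SeparableSpace (Lp ℂ p μ)] :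
    SeparableSpace (StrongDual ℂ (Lp ℂ p μ)) := by
  have := isSeparable_of_Lp (μ := μ) htop
  have : Fact (Q ≠ ∞) := ⟨hQt⟩
  have hd : DenseRange (pr μ p Q) := by
    intro y
    rw [Metric.mem_closure_range_iff]
    intro ε hε
    obtain ⟨h, hh⟩ := pr_dense h1 htop hQt hpq y (half_pos hε)
    refine ⟨h, ?_⟩
    rw [dist_comm, dist_eq_norm]
    linarith
  exact hd.separableSpace (pr μ p Q).continuous

/-- **Typical contractions of `L_p(μ)`.** -/
theorem typ_Lp {p : ℝ≥0∞} [Fact (1 ≤ p)] (hp1 : 1 < p) (htop : p ≠ ∞)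
    [SeparableSpace (Lp ℂ p μ)] (hinf : ¬ FiniteDimensional ℂ (Lp ℂ p μ))
    (C : Set (Lp ℂ p μ →L[ℂ] Lp ℂ p μ)) (hC : C = {T | ‖T‖ ≤ 1}) :
    @IsCompletelyMetrizableSpace C (sotStar C) ∧ @BaireSpace C (sotStar C) ∧
      {T : C | GoodH (T : Lp ℂ p μ →L[ℂ] Lp ℂ p μ)} ∈ @residual C (sotStar C) := by
  have h1 : 1 < p.toReal := by
    rw [← ENNReal.toReal_one]
    exact (ENNReal.toReal_lt_toReal ENNReal.one_ne_top htop).2 hp1
  set q : ℝ := Real.conjExponent p.toReal with hq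
  have hpq : p.toReal.HolderConjugate q := Real.HolderConjugate.conjExponent h1
  set Q : ℝ≥0∞ := ENNReal.ofReal q with hQ
  have hQr : Q.toReal = q := ENNReal.toReal_ofReal hpq.symm.nonneg
  have hQt : Q ≠ ∞ := ENNReal.ofReal_ne_top
  have hpq' : p.toReal.HolderConjugate Q.toReal := by rw [hQr]; exact hpq
  have : Q.HolderConjugate p := by
    have h2 := hpq.symm.ennrealOfReal
    rwa [ENNReal.ofReal_toReal htop] at h2
  have hQ1 : (1 : ℝ≥0∞) ≤ Q := by
    rw [hQ, ENNReal.one_le_ofReal]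
    exact hpq.symm.lt.le
  have : Fact (1 ≤ Q) := ⟨hQ1⟩
  have := sep_dual (μ := μ) (Q := Q) h1 htop hQt hpq'
  obtain ⟨D, hD⟩ := exists_dseq (μ := μ) htop hinf
  have : Nontrivial (Lp ℂ p μ) := by
    by_contra hn
    rw [not_nontrivial_iff_subsingleton] at hn
    exact hinf inferInstance
  have hcm : @IsCompletelyMetrizableSpace C (sotStar C) := by
    refine cm_sotStar (fun T hT => by rw [hC] at hT; exact hT) ?_
    intro w T0 hw hlim
    rw [hC]
    refine ContinuousLinearMap.opNorm_le_bound _ zero_le_one fun x => ?_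
    refine le_of_tendsto (hlim x).norm (Eventually.of_forall fun m => ?_)
    have hm : ‖w m‖ ≤ 1 := by
      have := hw m
      rw [hC] at this
      exact this
    exact ((w m).le_opNorm x).trans (mul_le_mul_of_nonneg_right hm (norm_nonneg _))
  refine ⟨hcm, ?_, ?_⟩
  · exact @BaireSpace.of_completelyPseudoMetrizable _ (sotStar C)
      (@IsCompletelyMetrizableSpace.toIsCompletelyPseudoMetrizableSpace _ (sotStar C) hcm)
  · letI : TopologicalSpace C := sotStar C
    have := fc_of_cm _ hcm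
    exact typ_hyp hpq' (blockSys_Lp h1 htop hQt hpq' hD) (ballS_sotStar C hC)

end Pool.Agent.K4H43.TL
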