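import Pool.Agent.Y280.HLp
import Pool.Agent.Y280.HFin
import Pool.Agent.Y825.RK.Sets
import Pool.Agent.R284.AS.Op
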