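import Pool.Agent.K4H43.TL.Sys

/-!
# Infinite-dimensional and separable `L_p(μ)`
-/

set_option autoImplicit false
open MeasureTheory Filter Topology Finset TopologicalSpace
open scoped ENNReal

namespace Pool.Agent.K4H43.TL
open Pool.Agent.Y280 Pool.Agent.Y825.RK

variable {Ω : Type*} [MeasurableSpace Ω] {μ : Measure Ω} {p : ℝ≥0∞} [Fact (1 ≤ p)]

section inf

/-- The span of the indicators of the subsets of a set. -/
noncomputable def Wd (μ : Measure Ω) (p : ℝ≥0∞) [Fact (1 ≤ p)] (B : Set Ω) :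
    Submodule ℂ (Lp ℂ p μ) :=
  Submodule.span ℂ {x | ∃ (s : Set Ω) (hs : MeasurableSet s) (ht : μ s ≠ ∞), s ⊆ B ∧
    x = indicatorConstLp p hs ht (1 : ℂ)}

lemma ind_mem {B s : Set Ω} (hs : MeasurableSet s) (ht : μ s ≠ ∞) (hsB : s ⊆ B) :
    indicatorConstLp p hs ht (1 : ℂ) ∈ Wd μ p B :=
  Submodule.subset_span ⟨s, hs, ht, hsB, rfl⟩

lemma Wd_mono {B B' : Set Ω} (h : B ⊆ B') : Wd μ p B ≤ Wd μ p B' := by
  apply Submodule.span_mono
  rintro x ⟨s, hs, ht, hsB, rfl⟩
  exact ⟨s, hs, ht, hsB.trans h, rfl⟩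

lemma ind_split {s A : Set Ω} (hs : MeasurableSet s) (ht : μ s ≠ ∞) (hA : MeasurableSet A) :
    indicatorConstLp p hs ht (1 : ℂ) =
      indicatorConstLp p (hs.inter hA)
        (ne_top_of_le_ne_top ht (measure_mono Set.inter_subset_left)) (1 : ℂ) +
      indicatorConstLp p (hs.diff hA)
        (ne_top_of_le_ne_top ht (measure_mono Set.sdiff_subset)) (1 : ℂ) := by
  rw [← indicatorConstLp_disjoint_union (hs.inter hA) (hs.diff hA) _ _
    (Set.disjoint_sdiff_right.mono_left Set.inter_subset_right)]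
  congr 1
  exact (Set.inter_union_sdiff s A).symm

lemma Wd_split {B A : Set Ω} (hA : MeasurableSet A) :
    Wd μ p B ≤ Wd μ p (B ∩ A) ⊔ Wd μ p (B \ A) := by
  apply Submodule.span_le.2
  rintro x ⟨s, hs, ht, hsB, rfl⟩
  rw [ind_split hs ht hA]
  refine Submodule.add_mem_sup (ind_mem _ _ (Set.inter_subset_inter_left _ hsB))
    (ind_mem _ _ (Set.sdiff_subset_sdiff_left hsB))

lemma Wd_inf {B A : Set Ω} (hA : MeasurableSet A) (h : ¬ FiniteDimensional ℂ (Wd μ p B)) :
    ¬ FiniteDimensional ℂ (Wd μ p (B ∩ A)) ∨ ¬ FiniteDimensional ℂ (Wd μ p (B \ A)) := by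
  by_contra hc
  push Not at hc
  have := hc.1
  have := hc.2
  exact h (Submodule.finiteDimensional_of_le (Wd_split (p := p) hA))

lemma Wd_inf_mono {B B' : Set Ω} (hB : B ⊆ B') (h : ¬ FiniteDimensional ℂ (Wd μ p B)) :
    ¬ FiniteDimensional ℂ (Wd μ p B') := fun hc => by
  have := hc
  exact h (Submodule.finiteDimensional_of_le (Wd_mono hB))

lemma Wd_univ (htop : p ≠ ∞) (h : ¬ FiniteDimensional ℂ (Lp ℂ p μ)) :
    ¬ FiniteDimensional ℂ (Wd μ p Set.univ) := by
  intro hc
  have := hc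
  apply h
  have hcl : IsClosed (Wd μ p (Set.univ : Set Ω) : Set (Lp ℂ p μ)) :=
    Submodule.closed_of_finiteDimensional _
  have hall : ∀ f : Lp ℂ p μ, f ∈ Wd μ p Set.univ := by
    refine Lp.induction htop (fun f => f ∈ Wd μ p Set.univ) ?_ ?_ hcl
    · intro c s hs hμs
      rw [Lp.simpleFunc.coe_indicatorConst]
      have e : indicatorConstLp p hs hμs.ne c = c • indicatorConstLp p hs hμs.ne (1 : ℂ) := by
        apply Lp.ext
        filter_upwards [indicatorConstLp_coeFn (p := p) (hs := hs) (hμs := hμs.ne) (c := c),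
          indicatorConstLp_coeFn (p := p) (hs := hs) (hμs := hμs.ne) (c := (1 : ℂ)),
          Lp.coeFn_smul c (indicatorConstLp p hs hμs.ne (1 : ℂ))] with ω h1 h2 h3
        rw [h1, h3, Pi.smul_apply, h2, smul_eq_mul]
        by_cases h4 : ω ∈ s
        · rw [Set.indicator_of_mem h4, Set.indicator_of_mem h4, mul_one]
        · rw [Set.indicator_of_notMem h4, Set.indicator_of_notMem h4, mul_zero]
      rw [e]
      exact Submodule.smul_mem _ _ (ind_mem hs hμs.ne (Set.subset_univ _))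
    · intro f g hf hg _ h1 h2
      exact Submodule.add_mem _ h1 h2
  have htop' : Wd μ p (Set.univ : Set Ω) = ⊤ := Submodule.eq_top_iff'.2 hall
  rw [htop'] at hc
  exact Module.Finite.equiv (Submodule.topEquiv : (⊤ : Submodule ℂ (Lp ℂ p μ)) ≃ₗ[ℂ] Lp ℂ p μ)

lemma ind_null (htop : p ≠ ∞) {s : Set Ω} (hs : MeasurableSet s) (ht : μ s ≠ ∞) (h0 : μ s = 0) :
    indicatorConstLp p hs ht (1 : ℂ) = 0 := by
  have hp0 : p ≠ 0 := (zero_lt_one.trans_le (Fact.out : 1 ≤ p)).ne'
  rw [← norm_eq_zero, norm_indicatorConstLp hp0 htop, measureReal_def, h0, ENNReal.toReal_zero,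
    Real.zero_rpow, mul_zero]
  exact one_div_ne_zero (ENNReal.toReal_ne_zero.2 ⟨hp0, htop⟩)

/-- A rich set contains a piece with rich complement. -/
lemma rich_step (htop : p ≠ ∞) {B : Set Ω} (h : ¬ FiniteDimensional ℂ (Wd μ p B)) :
    ∃ A : Set Ω, MeasurableSet A ∧ A ⊆ B ∧ μ A ≠ 0 ∧ μ A ≠ ∞ ∧
      ¬ FiniteDimensional ℂ (Wd μ p (B \ A)) := by
  obtain ⟨s, hs, ht, hsB, hs0⟩ : ∃ (s : Set Ω) (_ : MeasurableSet s) (_ : μ s ≠ ∞), s ⊆ B ∧
      μ s ≠ 0 := by
    by_contra hc
    push Not at hc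
    apply h
    have : Wd μ p B = ⊥ := by
      rw [eq_bot_iff]
      apply Submodule.span_le.2
      rintro x ⟨s, hs, ht, hsB, rfl⟩
      rw [ind_null htop hs ht (hc s hs ht hsB)]
      exact Submodule.zero_mem _
    rw [this]
    infer_instance
  by_cases h1 : FiniteDimensional ℂ (Wd μ p (B \ s))
  · have h2 : ¬ FiniteDimensional ℂ (Wd μ p s) := by
      rcases Wd_inf hs h with h3 | h3
      · rwa [Set.inter_eq_self_of_subset_right hsB] at h3
      · exact absurd h1 h3
    obtain ⟨t, htm, htt, hts, hsp⟩ : ∃ (t : Set Ω) (htm : MeasurableSet t) (htt : μ t ≠ ∞),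
        t ⊆ s ∧ indicatorConstLp p htm htt (1 : ℂ) ∉
          Submodule.span ℂ {indicatorConstLp p hs ht (1 : ℂ)} := by
      by_contra hc
      push Not at hc
      apply h2
      have hle : Wd μ p s ≤ Submodule.span ℂ {indicatorConstLp p hs ht (1 : ℂ)} := by
        apply Submodule.span_le.2
        rintro x ⟨t, htm, htt, hts, rfl⟩
        exact hc t htm htt hts
      exact Submodule.finiteDimensional_of_le hle
    have ht0 : μ t ≠ 0 := by
      intro h0
      apply hsp
      rw [ind_null htop htm htt h0]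
      exact Submodule.zero_mem _
    have hst0 : μ (s \ t) ≠ 0 := by
      intro h0
      apply hsp
      have e := ind_split (p := p) hs ht htm
      rw [ind_null htop (hs.diff htm) _ h0, add_zero] at e
      have e2 : indicatorConstLp p (hs.inter htm)
          (ne_top_of_le_ne_top ht (measure_mono Set.inter_subset_left)) (1 : ℂ) =
          indicatorConstLp p htm htt (1 : ℂ) := by
        congr 1
        exact Set.inter_eq_self_of_subset_right hts
      rw [e2] at e
      rw [← e]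
      exact Submodule.mem_span_singleton_self _
    rcases Wd_inf htm h2 with h3 | h3
    · refine ⟨s \ t, hs.diff htm, Set.sdiff_subset.trans hsB, hst0,
        ne_top_of_le_ne_top ht (measure_mono Set.sdiff_subset), Wd_inf_mono ?_ h3⟩
      rintro ω ⟨h4, h5⟩
      exact ⟨hsB h4, fun h6 => h6.2 h5⟩
    · refine ⟨t, htm, hts.trans hsB, ht0, htt, Wd_inf_mono ?_ h3⟩
      exact Set.sdiff_subset_sdiff_left hsB
  · exact ⟨s, hs, hsB, hs0, ht, h1⟩

/-- **An infinite-dimensional `L_p(μ)` lives on infinitely many disjoint sets.** -/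
theorem exists_dseq (htop : p ≠ ∞) (h : ¬ FiniteDimensional ℂ (Lp ℂ p μ)) :
    ∃ C : ℕ → Set Ω, DSeq μ C := by
  classical
  choose! F hF using fun (B : Set Ω) (hB : ¬ FiniteDimensional ℂ (Wd μ p B)) =>
    rich_step htop hB
  set R : ℕ → Set Ω := fun n => Nat.rec Set.univ (fun _ B => B \ F B) n with hR
  have hR1 : ∀ n, R (n + 1) = R n \ F (R n) := fun n => rfl
  have hinf : ∀ n, ¬ FiniteDimensional ℂ (Wd μ p (R n)) := by
    intro n
    induction n with
    | zero => exact Wd_univ htop h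
    | succ n ih =>
      rw [hR1]
      exact (hF _ ih).2.2.2.2
  have hanti : Antitone R := antitone_nat_of_succ_le fun n => by
    rw [hR1]
    exact Set.sdiff_subset
  have hlt : ∀ i j, i < j → Disjoint (F (R i)) (F (R j)) := by
    intro i j hij
    have h1 : F (R j) ⊆ R (i + 1) := (hF _ (hinf j)).2.1.trans (hanti hij)
    rw [hR1] at h1
    exact Set.disjoint_sdiff_right.mono_right h1
  refine ⟨fun n => F (R n), ⟨fun n => (hF _ (hinf n)).1, fun n => (hF _ (hinf n)).2.2.1,
    fun n => (hF _ (hinf n)).2.2.2.1, ?_⟩⟩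
  intro i j hij
  rcases lt_or_gt_of_ne hij with h1 | h1
  · exact hlt i j h1
  · exact (hlt j i h1).symm

end inf

section sep

/-- Separability does not depend on the exponent. -/
theorem isSeparable_of_Lp (htop : p ≠ ∞) [SeparableSpace (Lp ℂ p μ)] :
    MeasureTheory.IsSeparable μ := by
  classical
  have hp0 : p ≠ 0 := (zero_lt_one.trans_le (Fact.out : 1 ≤ p)).ne'
  have hpr : 0 < p.toReal := ENNReal.toReal_pos hp0 htop
  set S : Set (Lp ℂ p μ) := {x | ∃ (s : Set Ω) (hs : MeasurableSet s) (ht : μ s ≠ ∞),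
    x = indicatorConstLp p hs ht (1 : ℂ)} with hS
  obtain ⟨T, hTS, hTc, hST⟩ :=
    (TopologicalSpace.IsSeparable.of_separableSpace S).exists_countable_dense_subset
  choose! A hA1 hA2 hA3 using fun x (hx : x ∈ S) => hx
  refine ⟨⟨A '' T, hTc.image _, ?_, ?_⟩⟩
  · rintro _ ⟨x, hx, rfl⟩
    exact hA1 x (hTS hx)
  · intro s hs ht ε hε
    have h1 : indicatorConstLp p hs ht (1 : ℂ) ∈ closure T := hST ⟨s, hs, ht, rfl⟩
    obtain ⟨x, hx, hd⟩ := Metric.mem_closure_iff.1 h1 (ε ^ (1 / p.toReal)) (by positivity)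
    refine ⟨A x, ⟨x, hx, rfl⟩, ?_⟩
    rw [hA3 x (hTS hx), dist_indicatorConstLp_eq_norm, norm_indicatorConstLp hp0 htop,
      norm_one, one_mul] at hd
    have h2 := (Real.rpow_lt_rpow_iff measureReal_nonneg hε.le (by positivity)).1 hd
    have hne : μ (symmDiff s (A x)) ≠ ∞ := measure_symmDiff_ne_top ht (hA2 x (hTS hx))
    rwa [measureReal_def, ← ENNReal.lt_ofReal_iff_toReal_lt hne] at h2

end sep

end Pool.Agent.K4H43.TL
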