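import Pool.Agent.K4H43.TL.Blk

/-!
# Simple functions and functionals on `L_p(μ)`
-/

set_option autoImplicit false
open MeasureTheory Filter Topology Finset
open scoped ENNReal

namespace Pool.Agent.K4H43.TL
open Pool.Agent.Y280 Pool.Agent.Y825.RK

variable {Ω : Type*} [MeasurableSpace Ω] {μ : Measure Ω}

/-- Finitely many simple functions are step functions for one family of disjoint sets. -/
theorem exists_sets {ι : Type*} [Fintype ι] (f : ι → SimpleFunc Ω ℂ)
    (hf : ∀ s, μ (Function.support (f s)) ≠ ∞) {D : Set Ω} (hD : ∀ s, ∀ ω ∈ D, f s ω = 0) :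
    ∃ (N : ℕ) (A : Fin N → Set Ω), (∀ i, MeasurableSet (A i)) ∧ (∀ i, μ (A i) ≠ 0) ∧
      (∀ i, μ (A i) ≠ ∞) ∧ Pairwise (Function.onFun Disjoint A) ∧ (∀ i, Disjoint (A i) D) ∧
      ∃ c : ι → Fin N → ℂ, ∀ s, (f s : Ω → ℂ) =ᵐ[μ]
        fun ω => ∑ i, (A i).indicator (fun _ => c s i) ω := by
  classical
  set F : Ω → (ι → ℂ) := fun ω s => f s ω with hF
  have hfin : (Set.range F).Finite := by
    refine (Set.Finite.pi (t := fun s : ι => Set.range (f s)) fun s => (f s).finite_range).subset ?_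
    rintro _ ⟨ω, rfl⟩ s _
    exact ⟨ω, rfl⟩
  have hFm : ∀ v, MeasurableSet (F ⁻¹' {v}) := by
    intro v
    have : F ⁻¹' {v} = ⋂ s, (f s) ⁻¹' {v s} := by
      ext ω
      simp only [Set.mem_preimage, Set.mem_singleton_iff, Set.mem_iInter, hF]
      exact funext_iff
    rw [this]
    exact MeasurableSet.iInter fun s => (f s).measurableSet_fiber _
  set V : Finset (ι → ℂ) := hfin.toFinset.filter fun v => v ≠ 0 ∧ μ (F ⁻¹' {v}) ≠ 0 with hV
  set e := V.equivFin with he
  have hmem : ∀ i, ((e.symm i : V) : ι → ℂ) ∈ V := fun i => (e.symm i).2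
  have hne : ∀ i, ((e.symm i : V) : ι → ℂ) ≠ 0 := fun i => (mem_filter.1 (hmem i)).2.1
  refine ⟨V.card, fun i => F ⁻¹' {((e.symm i : V) : ι → ℂ)}, fun i => hFm _,
    fun i => (mem_filter.1 (hmem i)).2.2, ?_, ?_, ?_, fun s i => ((e.symm i : V) : ι → ℂ) s, ?_⟩
  · intro i
    obtain ⟨s, hs⟩ := Function.ne_iff.1 (hne i)
    refine ne_top_of_le_ne_top (hf s) (measure_mono fun ω hω => ?_)
    rw [Function.mem_support]
    have h1 : F ω = ((e.symm i : V) : ι → ℂ) := hω
    have h2 := congrFun h1 s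
    rw [show f s ω = F ω s from rfl, h2]
    exact hs
  · intro i j hij
    rw [Function.onFun, Set.disjoint_left]
    intro ω h1 h2
    apply hij
    have h3 : ((e.symm i : V) : ι → ℂ) = ((e.symm j : V) : ι → ℂ) := by
      rw [← show F ω = _ from h1, ← show F ω = _ from h2]
    exact e.symm.injective (Subtype.ext h3)
  · intro i
    rw [Set.disjoint_left]
    intro ω h1 h2
    apply hne i
    rw [← show F ω = _ from h1]
    funext s
    exact hD s ω h2
  · intro s
    have hZ : μ (⋃ v ∈ {v | v ∈ Set.range F ∧ μ (F ⁻¹' {v}) = 0}, F ⁻¹' {v}) = 0 :=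
      (measure_biUnion_null_iff ((hfin.subset fun v hv => hv.1).countable)).2 fun v hv => hv.2
    filter_upwards [measure_eq_zero_iff_ae_notMem.1 hZ] with ω hω
    have hnull : μ (F ⁻¹' {F ω}) ≠ 0 := by
      intro h0
      apply hω
      simp only [Set.mem_iUnion]
      exact ⟨F ω, ⟨⟨ω, rfl⟩, h0⟩, rfl⟩
    by_cases hF0 : F ω = 0
    · rw [show f s ω = F ω s from rfl, hF0, Pi.zero_apply]
      symm
      apply sum_eq_zero
      intro i _
      rw [Set.indicator_of_notMem]
      intro h1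
      exact hne i (by rw [← show F ω = _ from h1, hF0])
    · have hVm : F ω ∈ V := mem_filter.2 ⟨hfin.mem_toFinset.2 ⟨ω, rfl⟩, hF0, hnull⟩
      set i0 := e ⟨F ω, hVm⟩ with hi0
      have hi : ((e.symm i0 : V) : ι → ℂ) = F ω := by rw [hi0, e.symm_apply_apply]
      rw [sum_eq_single i0]
      · rw [Set.indicator_of_mem (show ω ∈ F ⁻¹' {((e.symm i0 : V) : ι → ℂ)} by rw [hi]; rfl), hi]
      · intro j _ hj
        rw [Set.indicator_of_notMem]
        intro h1
        apply hj
        have h2 : ((e.symm j : V) : ι → ℂ) = F ω := (show F ω = _ from h1).symm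
        have h3 : e.symm j = ⟨F ω, hVm⟩ := Subtype.ext h2
        rw [hi0, ← h3, e.apply_symm_apply]
      · intro h'; exact absurd (mem_univ _) h'

/-- Approximation by simple functions vanishing on the tails. -/
theorem approx_simple {P : ℝ≥0∞} (hP1 : 1 ≤ P) (hPt : P ≠ ∞) {f : Ω → ℂ} (hf : MemLp f P μ)
    {D : ℕ → Set Ω} (hDm : ∀ j, MeasurableSet (D j)) (hDa : Antitone D) (hD0 : ⋂ j, D j = ∅)
    {ε : ℝ} (hε : 0 < ε) :
    ∃ J, ∀ j, J ≤ j → ∃ g : SimpleFunc Ω ℂ, MemLp g P μ ∧ (∀ ω ∈ D j, g ω = 0) ∧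
      eLpNorm (f - (g : Ω → ℂ)) P μ ≤ ENNReal.ofReal ε := by
  have hP0 : P ≠ 0 := (zero_lt_one.trans_le hP1).ne'
  obtain ⟨g, hg, hgm⟩ := hf.exists_simpleFunc_eLpNorm_sub_lt hPt
    (ε := ENNReal.ofReal (ε / 2)) (by
      rw [Ne, ENNReal.ofReal_eq_zero, not_le]; positivity)
  obtain ⟨δ, hδ, hind⟩ := hgm.eLpNorm_indicator_le hP1 hPt (half_pos hε)
  have hsup : μ (Function.support g) < ∞ := g.measure_support_lt_top_of_memLp hgm hP0 hPt
  have hsm : MeasurableSet (Function.support g) := g.measurableSet_support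
  have hlim : Tendsto (μ ∘ fun j => D j ∩ Function.support g) atTop (𝓝 0) := by
    have h1 := tendsto_measure_iInter_atTop (μ := μ) (s := fun j => D j ∩ Function.support g)
      (fun j => ((hDm j).inter hsm).nullMeasurableSet)
      (fun i j hij => Set.inter_subset_inter_left _ (hDa hij))
      ⟨0, ne_top_of_le_ne_top hsup.ne (measure_mono Set.inter_subset_right)⟩
    have h2 : ⋂ j, D j ∩ Function.support g = ∅ := by
      rw [← Set.iInter_inter, hD0, Set.empty_inter]
    rw [h2, measure_empty] at h1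
    exact h1
  have hev : ∀ᶠ j in atTop, μ (D j ∩ Function.support g) ≤ ENNReal.ofReal δ := by
    have h3 := hlim.eventually (Iic_mem_nhds (show (0 : ℝ≥0∞) < ENNReal.ofReal δ from
      ENNReal.ofReal_pos.2 hδ))
    exact h3
  obtain ⟨J, hJ⟩ := eventually_atTop.1 hev
  refine ⟨J, fun j hj => ⟨g.restrict (D j)ᶜ, ?_, ?_, ?_⟩⟩
  · rw [SimpleFunc.coe_restrict _ (hDm j).compl]
    exact hgm.indicator (hDm j).compl
  · intro ω hω
    rw [SimpleFunc.restrict_apply _ (hDm j).compl, Set.indicator_of_notMem (by simpa using hω)]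
  · have e1 : f - (g.restrict (D j)ᶜ : Ω → ℂ) =
        (f - g) + (D j ∩ Function.support g).indicator g := by
      rw [SimpleFunc.coe_restrict _ (hDm j).compl]
      ext ω
      simp only [Pi.sub_apply, Pi.add_apply]
      by_cases h : ω ∈ D j
      · rw [Set.indicator_of_notMem (show ω ∉ (D j)ᶜ by simpa using h)]
        by_cases h0 : ω ∈ Function.support g
        · rw [Set.indicator_of_mem (show ω ∈ D j ∩ Function.support g from ⟨h, h0⟩)]
          ring
        · rw [Set.indicator_of_notMem (show ω ∉ D j ∩ Function.support g from fun h' => h0 h'.2)]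
          rw [Function.mem_support, not_not] at h0
          rw [h0]
          ring
      · rw [Set.indicator_of_mem (show ω ∈ (D j)ᶜ from h),
          Set.indicator_of_notMem (show ω ∉ D j ∩ Function.support g from fun h' => h h'.1),
          add_zero]
    rw [e1]
    refine (eLpNorm_add_le (hf.1.sub hgm.1)
      ((hgm.indicator ((hDm j).inter hsm)).1) hP1).trans ?_
    refine (add_le_add hg.le (hind _ ((hDm j).inter hsm) (hJ j hj))).trans ?_
    rw [← ENNReal.ofReal_add (by positivity) (by positivity), add_halves]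

end Pool.Agent.K4H43.TL
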