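import Pool.Agent.K4H43.TL.Dual

/-!
# `L_p(μ)` is approximated by blocks
-/

set_option autoImplicit false
open MeasureTheory Filter Topology Finset TopologicalSpace
open scoped ENNReal

namespace Pool.Agent.K4H43.TL
open Pool.Agent.Y280 Pool.Agent.Y825.RK

section abs

variable {E : Type*} [NormedAddCommGroup E] [NormedSpace ℂ E]
  {I : Type} [Fintype I] {e : I → E} {k : I → StrongDual ℂ E} {P : ℝ}

lemma near_vec (h : Blk P e k) (hP : 0 < P) {x : E} {u : I → ℂ} {ε : ℝ}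
    (hx : ‖vecB e u - x‖ ≤ ε) : ‖vecB e (fun i => k i x) - x‖ ≤ 2 * ε := by
  have e1 : vecB e (fun i => k i x) - x =
      (vecB e u - x) - vecB e (fun i => k i (vecB e u - x)) := by
    have e2 : vecB e (fun i => k i (vecB e u - x)) = vecB e u - vecB e (fun i => k i x) := by
      have e3 : (fun i => k i (vecB e u - x)) = fun i => u i - k i x := by
        funext i
        rw [map_sub, h.k_vecB]
      rw [e3]
      unfold vecB
      rw [← sum_sub_distrib]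
      exact sum_congr rfl fun i _ => sub_smul _ _ _
    rw [e2]
    abel
  rw [e1, two_mul]
  exact (norm_sub_le _ _).trans (add_le_add hx ((h.norm_R hP _).trans hx))

lemma near_fnl (h : Blk P e k) (hP : 0 < P) {y : StrongDual ℂ E} {v : I → ℂ} {ε : ℝ}
    (hy : ‖fnlB k v - y‖ ≤ ε) : ‖fnlB k (fun i => y (e i)) - y‖ ≤ 2 * ε := by
  classical
  have e1 : fnlB k (fun i => y (e i)) - y =
      (fnlB k v - y) - fnlB k (fun i => (fnlB k v - y) (e i)) := by
    have e2 : fnlB k (fun i => (fnlB k v - y) (e i)) = fnlB k v - fnlB k (fun i => y (e i)) := by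
      have e3 : (fun i => (fnlB k v - y) (e i)) = fun i => v i - y (e i) := by
        funext i
        rw [_root_.sub_apply, fnlB_apply, sum_eq_single i]
        · rw [h.hke, if_pos rfl, mul_one]
        · intro j _ hj
          rw [h.hke, if_neg hj, mul_zero]
        · intro h'; exact absurd (mem_univ _) h'
      rw [e3]
      unfold fnlB
      rw [← sum_sub_distrib]
      refine sum_congr rfl fun i _ => ?_
      ext z
      simp only [_root_.sub_apply, _root_.smul_apply, smul_eq_mul]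
      ring
    rw [e2]
    abel
  rw [e1, two_mul]
  exact (norm_sub_le _ _).trans (add_le_add hy ((h.norm_dR hP _).trans hy))

end abs

variable {Ω : Type*} [MeasurableSpace Ω] {μ : Measure Ω}

/-- A sequence of disjoint sets of positive finite measure. -/
structure DSeq (μ : Measure Ω) (C : ℕ → Set Ω) : Prop where
  m : ∀ j, MeasurableSet (C j)
  nz : ∀ j, μ (C j) ≠ 0
  ft : ∀ j, μ (C j) ≠ ∞
  dj : Pairwise (Function.onFun Disjoint C)

/-- The tails. -/
def tl (C : ℕ → Set Ω) (J : ℕ) : Set Ω := ⋃ (j : ℕ) (_ : J ≤ j), C j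

lemma DSeq.tl_m {C : ℕ → Set Ω} (hC : DSeq μ C) (J : ℕ) : MeasurableSet (tl C J) :=
  MeasurableSet.iUnion fun j => MeasurableSet.iUnion fun _ => hC.m j

lemma tl_anti (C : ℕ → Set Ω) : Antitone (tl C) := by
  intro J J' hJ
  refine Set.iUnion_subset fun j => Set.iUnion_subset fun hj => ?_
  exact Set.subset_iUnion₂_of_subset j (hJ.trans hj) subset_rfl

lemma DSeq.tl_empty {C : ℕ → Set Ω} (hC : DSeq μ C) : ⋂ J, tl C J = ∅ := by
  rw [Set.eq_empty_iff_forall_notMem]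
  intro ω hω
  rw [Set.mem_iInter] at hω
  have h0 := hω 0
  simp only [tl, Set.mem_iUnion] at h0
  obtain ⟨i, _, hi⟩ := h0
  have h1 := hω (i + 1)
  simp only [tl, Set.mem_iUnion] at h1
  obtain ⟨j, hij, hj⟩ := h1
  exact Set.disjoint_left.1 (hC.dj (show i ≠ j by omega)) hi hj

section lim

variable {p : ℝ≥0∞} [Fact (1 ≤ p)] {C : ℕ → Set Ω}

lemma eF_small (h1 : 1 < p.toReal) (htop : p ≠ ∞) {q : ℝ} (hpq : p.toReal.HolderConjugate q)
    (hC : DSeq μ C) (x : Lp ℂ p μ) {ε : ℝ} (hε : 0 < ε) :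
    ∃ K, ∀ l, K ≤ l → ‖eF ℂ h1 htop hpq (hC.nz l) (hC.ft l) x‖ ≤ ε := by
  have hp0 : 0 < p.toReal := by linarith
  have hs : Summable fun l => ‖eF ℂ h1 htop hpq (hC.nz l) (hC.ft l) x‖ ^ p.toReal := by
    refine summable_of_sum_range_le (c := ‖x‖ ^ p.toReal) (fun _ => by positivity) fun n => ?_
    rw [← Fin.sum_univ_eq_sum_range
      (fun l => ‖eF ℂ h1 htop hpq (hC.nz l) (hC.ft l) x‖ ^ p.toReal) n]
    exact sum_eF_le h1 htop hpq (A := fun i : Fin n => C i) (fun i => hC.m i) (fun i => hC.nz i)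
      (fun i => hC.ft i) (fun i j hij => hC.dj fun h => hij (Fin.ext h)) x
  have hev := hs.tendsto_atTop_zero.eventually
    (Iic_mem_nhds (show (0 : ℝ) < ε ^ p.toReal by positivity))
  obtain ⟨K, hK⟩ := eventually_atTop.1 hev
  exact ⟨K, fun l hl => (Real.rpow_le_rpow_iff (norm_nonneg _) hε.le hp0).1 (hK l hl)⟩

variable {Q : ℝ≥0∞} [Fact (1 ≤ Q)] [Q.HolderConjugate p]

lemma pr_eV' (h1 : 1 < Q.toReal) (hQt : Q ≠ ∞)
    (hqp : Q.toReal.HolderConjugate p.toReal) {B : Set Ω} (hB : MeasurableSet B)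
    (hB0 : μ B ≠ 0) (hBt : μ B ≠ ∞) (h : Lp ℂ Q μ) :
    pr μ p Q h (eV ℂ p hB hBt) = eF ℂ h1 hQt hqp hB0 hBt h := by
  rw [pr_apply, eF_apply]
  have h2 : ∫ ω, h ω * (eV ℂ p hB hBt : Lp ℂ p μ) ω ∂μ =
      ∫ ω, B.indicator (fun ω => (((μ.real B ^ (-(1 / p.toReal)) : ℝ)) : ℂ) * h ω) ω ∂μ := by
    apply integral_congr_ae
    have h3 : (eV ℂ p hB hBt : Lp ℂ p μ) =ᵐ[μ] B.indicator fun _ =>
      (((μ.real B ^ (-(1 / p.toReal)) : ℝ)) : ℂ) := indicatorConstLp_coeFn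
    filter_upwards [h3] with ω h4
    rw [h4]
    by_cases h5 : ω ∈ B
    · rw [Set.indicator_of_mem h5, Set.indicator_of_mem h5, mul_comm]
    · rw [Set.indicator_of_notMem h5, Set.indicator_of_notMem h5, mul_zero]
  rw [h2, integral_indicator hB, integral_const_mul]
  rfl

lemma norm_eV_le (h1 : 1 < p.toReal) (htop : p ≠ ∞) {q : ℝ} (hpq : p.toReal.HolderConjugate q)
    {B : Set Ω} (hB : MeasurableSet B) (hB0 : μ B ≠ 0) (hBt : μ B ≠ ∞) :
    ‖(eV ℂ p hB hBt : Lp ℂ p μ)‖ ≤ 1 :=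
  (blk_sets h1 htop hpq (A := fun _ : Fin 1 => B) (fun _ => hB) (fun _ => hB0) (fun _ => hBt)
    (fun i j hij => absurd (Subsingleton.elim i j) hij)).norm_e_le (by linarith) 0

lemma y_small (h1 : 1 < p.toReal) (htop : p ≠ ∞) (hQt : Q ≠ ∞)
    (hpq : p.toReal.HolderConjugate Q.toReal)
    (hC : DSeq μ C) (y : StrongDual ℂ (Lp ℂ p μ)) {ε : ℝ} (hε : 0 < ε) :
    ∃ K, ∀ l, K ≤ l → ‖y (eV ℂ p (hC.m l) (hC.ft l))‖ ≤ ε := by
  obtain ⟨h, hh⟩ := pr_dense h1 htop hQt hpq y (half_pos hε)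
  obtain ⟨K, hK⟩ := eF_small (p := Q) hpq.symm.lt hQt hpq.symm hC h (half_pos hε)
  refine ⟨K, fun l hl => ?_⟩
  have e : y (eV ℂ p (hC.m l) (hC.ft l)) = pr μ p Q h (eV ℂ p (hC.m l) (hC.ft l)) -
      (pr μ p Q h - y) (eV ℂ p (hC.m l) (hC.ft l)) := by
    rw [_root_.sub_apply]; ring
  rw [e, ← add_halves ε]
  refine (norm_sub_le _ _).trans (add_le_add ?_ ?_)
  · rw [pr_eV' hpq.symm.lt hQt hpq.symm (hC.m l) (hC.nz l) (hC.ft l)]
    exact hK l hl
  · refine (ContinuousLinearMap.le_opNorm _ _).trans ?_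
    exact (mul_le_of_le_one_right (norm_nonneg _)
      (norm_eV_le h1 htop hpq (hC.m l) (hC.nz l) (hC.ft l))).trans hh

end lim

section ext

variable {p Q : ℝ≥0∞} [Fact (1 ≤ p)] [Fact (1 ≤ Q)] [Q.HolderConjugate p] {C : ℕ → Set Ω}

lemma exists_big {α : Type*} (X : Finset α) (R : α → ℕ → Prop)
    (h : ∀ x ∈ X, ∃ K, ∀ l, K ≤ l → R x l) : ∃ K, ∀ l, K ≤ l → ∀ x ∈ X, R x l := by
  have : ∀ᶠ l in atTop, ∀ x ∈ X, R x l := by
    rw [eventually_all_finset]
    intro x hx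
    exact eventually_atTop.2 (h x hx)
  exact eventually_atTop.1 this

lemma eV_congr {B B' : Set Ω} (h : B = B') (hB : MeasurableSet B) (hBt : μ B ≠ ∞)
    (hB' : MeasurableSet B') (hBt' : μ B' ≠ ∞) :
    (eV ℂ p hB hBt : Lp ℂ p μ) = eV ℂ p hB' hBt' := by
  subst h; rfl

lemma eF_congr (h1 : 1 < p.toReal) (htop : p ≠ ∞) {q : ℝ} (hpq : p.toReal.HolderConjugate q)
    {B B' : Set Ω} (h : B = B') (hB0 : μ B ≠ 0) (hBt : μ B ≠ ∞)
    (hB0' : μ B' ≠ 0) (hBt' : μ B' ≠ ∞) :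
    eF ℂ h1 htop hpq hB0 hBt = eF ℂ h1 htop hpq hB0' hBt' := by
  subst h; rfl

theorem ext_sets (h1 : 1 < p.toReal) (htop : p ≠ ∞) (hQt : Q ≠ ∞)
    (hpq : p.toReal.HolderConjugate Q.toReal) (hC : DSeq μ C) {N J : ℕ} {A : Fin N → Set Ω}
    (hA : ∀ i, MeasurableSet (A i)) (hA0 : ∀ i, μ (A i) ≠ 0) (hAt : ∀ i, μ (A i) ≠ ∞)
    (hd : Pairwise (Function.onFun Disjoint A)) (hJ : ∀ i, Disjoint (A i) (tl C J)) :
    Ext p.toReal (fun i => eV ℂ p (hA i) (hAt i) : Fin N → Lp ℂ p μ)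
      (fun i => eF ℂ h1 htop hpq (hA0 i) (hAt i)) := by
  classical
  intro n X Y ε hε
  obtain ⟨K1, hK1⟩ := exists_big X
    (fun x l => ‖eF ℂ h1 htop hpq (hC.nz l) (hC.ft l) x‖ ≤ ε)
    (fun x _ => eF_small h1 htop hpq hC x hε)
  obtain ⟨K2, hK2⟩ := exists_big Y
    (fun y l => ‖y (eV ℂ p (hC.m l) (hC.ft l))‖ ≤ ε)
    (fun y _ => y_small h1 htop hQt hpq hC y hε)
  set K := max J (max K1 K2) with hK
  have hKJ : J ≤ K := le_max_left _ _
  have hKK1 : K1 ≤ K := (le_max_left _ _).trans (le_max_right _ _)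
  have hKK2 : K2 ≤ K := (le_max_right _ _).trans (le_max_right _ _)
  set κ : Fin N × Fin (n + 1) → ℕ := fun z => K + (finProdFinEquiv z : ℕ) with hκ
  have hκi : Function.Injective κ := by
    intro z z' h
    have h2 : (finProdFinEquiv z : ℕ) = finProdFinEquiv z' := by
      simp only [hκ] at h
      omega
    exact finProdFinEquiv.injective (Fin.ext h2)
  have hκK : ∀ z, K ≤ κ z := fun z => Nat.le_add_right _ _
  set B : Fin N × Fin (n + 1) → Set Ω := fun z => if z.2 = 0 then A z.1 else C (κ z) with hB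
  have hB1 : ∀ z, z.2 = 0 → B z = A z.1 := fun z hz => if_pos hz
  have hB2 : ∀ z, z.2 ≠ 0 → B z = C (κ z) := fun z hz => if_neg hz
  have hBm : ∀ z, MeasurableSet (B z) := by
    intro z
    by_cases hz : z.2 = 0
    · rw [hB1 z hz]; exact hA _
    · rw [hB2 z hz]; exact hC.m _
  have hB0 : ∀ z, μ (B z) ≠ 0 := by
    intro z
    by_cases hz : z.2 = 0
    · rw [hB1 z hz]; exact hA0 _
    · rw [hB2 z hz]; exact hC.nz _
  have hBt : ∀ z, μ (B z) ≠ ∞ := by
    intro z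
    by_cases hz : z.2 = 0
    · rw [hB1 z hz]; exact hAt _
    · rw [hB2 z hz]; exact hC.ft _
  have hAC : ∀ i z, Disjoint (A i) (C (κ z)) := by
    intro i z
    refine (hJ i).mono_right ?_
    exact Set.subset_iUnion₂_of_subset (κ z) (hKJ.trans (hκK z)) subset_rfl
  have hBd : Pairwise (Function.onFun Disjoint B) := by
    intro z z' hzz
    show Disjoint (B z) (B z')
    by_cases hz : z.2 = 0
    · by_cases hz' : z'.2 = 0
      · rw [hB1 z hz, hB1 z' hz']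
        refine hd fun h => hzz (Prod.ext h (hz.trans hz'.symm))
      · rw [hB1 z hz, hB2 z' hz']
        exact hAC _ _
    · by_cases hz' : z'.2 = 0
      · rw [hB2 z hz, hB1 z' hz']
        exact (hAC _ _).symm
      · rw [hB2 z hz, hB2 z' hz']
        exact hC.dj fun h => hzz (hκi h)
  refine ⟨fun z => eV ℂ p (hBm z) (hBt z), fun z => eF ℂ h1 htop hpq (hB0 z) (hBt z),
    blk_sets h1 htop hpq hBm hB0 hBt hBd, ?_, ?_, ?_, ?_⟩
  · intro i
    have : (eV ℂ p (hBm (i, 0)) (hBt (i, 0)) : Lp ℂ p μ) = eV ℂ p (hA i) (hAt i) :=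
      eV_congr (hB1 (i, 0) rfl) _ _ _ _
    beta_reduce
    rw [this, sub_self, norm_zero]
    exact hε.le
  · intro i
    have : eF ℂ h1 htop hpq (hB0 (i, 0)) (hBt (i, 0)) = eF ℂ h1 htop hpq (hA0 i) (hAt i) :=
      eF_congr h1 htop hpq (hB1 (i, 0) rfl) _ _ _ _
    beta_reduce
    rw [this, sub_self, norm_zero]
    exact hε.le
  · intro i a ha x hx
    beta_reduce
    rw [eF_congr h1 htop hpq (hB2 (i, a) ha) (hB0 (i, a)) (hBt (i, a)) (hC.nz _) (hC.ft _)]
    exact hK1 _ (hKK1.trans (hκK _)) x hx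
  · intro i a ha y hy
    beta_reduce
    rw [eV_congr (hB2 (i, a) ha) (hBm (i, a)) (hBt (i, a)) (hC.m _) (hC.ft _)]
    exact hK2 _ (hKK2.trans (hκK _)) y hy

/-- **`L_p(μ)` is approximated by blocks with room for copies.** -/
theorem blockSys_Lp (h1 : 1 < p.toReal) (htop : p ≠ ∞) (hQt : Q ≠ ∞)
    (hpq : p.toReal.HolderConjugate Q.toReal) (hC : DSeq μ C) :
    BlockSys p.toReal (Lp ℂ p μ) := by
  classical
  intro X Y ε hε
  have hp0 : 0 < p.toReal := by linarith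
  have hq1 : 1 < Q.toReal := hpq.symm.lt
  choose h hh using fun y : StrongDual ℂ (Lp ℂ p μ) =>
    pr_dense h1 htop hQt hpq y (show 0 < ε / 4 by positivity)
  obtain ⟨K1, hK1⟩ := exists_big X
    (fun x l => ∃ g : SimpleFunc Ω ℂ, MemLp g p μ ∧ (∀ ω ∈ tl C l, g ω = 0) ∧
      eLpNorm ((x : Ω → ℂ) - (g : Ω → ℂ)) p μ ≤ ENNReal.ofReal (ε / 2))
    (fun x _ => approx_simple Fact.out htop (Lp.memLp x) hC.tl_m (tl_anti C) hC.tl_empty
      (by positivity))
  obtain ⟨K2, hK2⟩ := exists_big Y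
    (fun y l => ∃ g : SimpleFunc Ω ℂ, MemLp g Q μ ∧ (∀ ω ∈ tl C l, g ω = 0) ∧
      eLpNorm ((h y : Ω → ℂ) - (g : Ω → ℂ)) Q μ ≤ ENNReal.ofReal (ε / 4))
    (fun y _ => approx_simple Fact.out hQt (Lp.memLp (h y)) hC.tl_m (tl_anti C) hC.tl_empty
      (by positivity))
  set J := max K1 K2 with hJ
  choose! gx hgx1 hgx2 hgx3 using hK1 J (le_max_left _ _)
  choose! gy hgy1 hgy2 hgy3 using hK2 J (le_max_right _ _)
  obtain ⟨N, A, hA, hA0, hAt, hd, hAD, c, hc⟩ := exists_sets (μ := μ) (D := tl C J)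
    (ι := {x // x ∈ X} ⊕ {y // y ∈ Y})
    (Sum.elim (fun x => gx x.1) (fun y => gy y.1)) (by
      rintro (x | y)
      · exact ((gx x.1).measure_support_lt_top_of_memLp (hgx1 x.1 x.2)
          (zero_lt_one.trans_le Fact.out).ne' htop).ne
      · exact ((gy y.1).measure_support_lt_top_of_memLp (hgy1 y.1 y.2)
          (zero_lt_one.trans_le Fact.out).ne' hQt).ne) (by
      rintro (x | y) ω hω
      · exact hgx2 x.1 x.2 ω hω
      · exact hgy2 y.1 y.2 ω hω)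
  have hb := blk_sets h1 htop hpq hA hA0 hAt hd
  refine ⟨N, fun i => eV ℂ p (hA i) (hAt i), fun i => eF ℂ h1 htop hpq (hA0 i) (hAt i), hb,
    ext_sets h1 htop hQt hpq hC hA hA0 hAt hd hAD, ?_, ?_⟩
  · intro x hx
    obtain ⟨u, hu⟩ := approx_vec hA hA0 hAt x (half_pos hε).le (hgx3 x hx)
      (hc (Sum.inl ⟨x, hx⟩))
    have := near_vec hb hp0 hu
    linarith
  · intro y hy
    obtain ⟨u, hu⟩ := approx_vec hA hA0 hAt (h y) (show 0 ≤ ε / 4 by positivity) (hgy3 y hy)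
      (hc (Sum.inr ⟨y, hy⟩))
    have h2 : ‖fnlB (fun i => eF ℂ h1 htop hpq (hA0 i) (hAt i)) u - y‖ ≤ ε / 2 := by
      rw [← pr_vecB h1 htop hpq hA hA0 hAt u]
      have e1 : pr μ p Q (vecB (fun i => eV ℂ Q (hA i) (hAt i)) u) - y =
          pr μ p Q (vecB (fun i => eV ℂ Q (hA i) (hAt i)) u - h y) + (pr μ p Q (h y) - y) := by
        rw [map_sub]; abel
      rw [e1]
      refine (norm_add_le _ _).trans ?_
      have := (norm_pr_le (p := p) (vecB (fun i => eV ℂ Q (hA i) (hAt i)) u - h y)).trans hu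
      have := hh y
      linarith
    have := near_fnl hb hp0 h2
    linarith

end ext

end Pool.Agent.K4H43.TL
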