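import Pool.Agent.K4H43.TL.Fin

/-!
# MP_f981b0_an: typical contractions of `L_p(μ)`

Let `1 < p < ∞` and let `μ` be any measure for which the complex space `L_p(μ)` is separable and
infinite-dimensional (for example `L_p[0,1]`, `L_p(ℝ^n)`, `ℓ_p`, or a sum of these). Then the
contractions of `L_p(μ)` form a completely metrizable space for the strong* operator topology, and
a typical contraction (all contractions outside a meager set) has nontrivial closed hyperinvariant
subspaces; these even come arbitrarily close to every vector.

Proof. For `ℓ_p` this is a result of the starting library (`MP_5ac32f_an`, TypicalHyperinvariant).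
Its proof works in any Banach space `E` with separable dual which has enough blocks: copies of
`ℓ_p^N` with projections of norm one, which approximate any finite set of vectors and of
functionals, and for each of which there are many further copies of the block, jointly isometric
to `ℓ_p^{N (n + 1)}` and with a projection of norm one, on which the given vectors and functionals
are small. In `L_p(μ)` the blocks are spanned by the indicators of disjoint sets of finite measure,
with conditional expectations as projections. As `L_p(μ)` is infinite-dimensional there is a
sequence of disjoint sets `C j` of positive finite measure (found by splitting sets on which the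
space is still infinite-dimensional). A step function approximating a given function, in `L_p` for
the vectors, and in `L_q` for the functionals (which by the Bishop-Phelps theorem are approximated
by norm attaining ones, and these are given by densities in `L_q`), can be changed to be `0` on all
but finitely many of the `C j`; a common refinement gives the block, and the `C j` with large `j`
give the further copies.
-/

set_option autoImplicit false
open MeasureTheory TopologicalSpace
open scoped ENNReal

namespace Pool.Agent.K4H43.TL.TypicalContractionsLp

/-- All contractions: the closed unit ball of the bounded operators. -/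
def Contr (E : Type*) [NormedAddCommGroup E] [NormedSpace ℂ E] : Set (E →L[ℂ] E) :=
  {T | ‖T‖ ≤ 1}

/-- The strong* operator topology on the contractions: pointwise norm convergence of the operators
and of their adjoints. -/
@[reducible] noncomputable def StrongStar (E : Type*) [NormedAddCommGroup E] [NormedSpace ℂ E] :
    TopologicalSpace (Contr E) :=
  TopologicalSpace.induced (fun T : Contr E => ((fun x : E => (T : E →L[ℂ] E) x),
    (fun y : StrongDual ℂ E => y.comp (T : E →L[ℂ] E)))) instTopologicalSpaceProd

/-- Arbitrarily close to every vector there is a vector which lies in a closed subspace, neither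
`{0}` nor the whole space, which is invariant under all bounded operators commuting with `T`. -/
def DenselyHyperinvariant {E : Type*} [NormedAddCommGroup E] [NormedSpace ℂ E]
    (T : E →L[ℂ] E) : Prop :=
  ∀ (x₀ : E) (ε : ℝ), 0 < ε → ∃ M : Submodule ℂ E, IsClosed (M : Set E) ∧ M ≠ ⊥ ∧ M ≠ ⊤ ∧
    (∀ S : E →L[ℂ] E, S * T = T * S → ∀ v ∈ M, S v ∈ M) ∧ ∃ x ∈ M, ‖x - x₀‖ < ε

variable {Ω : Type*} [MeasurableSpace Ω]

/-- **Typical contractions of `L_p(μ)`, `1 < p < ∞`, have nontrivial closed hyperinvariant
subspaces**, for every measure `μ` with `L_p(μ)` separable and infinite-dimensional. The space of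
contractions is completely metrizable. -/
theorem result (μ : Measure Ω) (p : ℝ≥0∞) [Fact (1 ≤ p)] (hp : 1 < p) (hp' : p ≠ ∞)
    [SeparableSpace (Lp ℂ p μ)] (hinf : ¬ FiniteDimensional ℂ (Lp ℂ p μ)) :
    (Contr (Lp ℂ p μ)).Nonempty ∧
      @IsCompletelyMetrizableSpace _ (StrongStar (Lp ℂ p μ)) ∧
      @BaireSpace _ (StrongStar (Lp ℂ p μ)) ∧
      {T : Contr (Lp ℂ p μ) | DenselyHyperinvariant (T : Lp ℂ p μ →L[ℂ] Lp ℂ p μ)} ∈
        @residual _ (StrongStar (Lp ℂ p μ)) := by
  obtain ⟨h1, h2, h3⟩ := Pool.Agent.K4H43.TL.typ_Lp (μ := μ) hp hp' hinf (Contr (Lp ℂ p μ)) rfl
  refine ⟨⟨0, ?_⟩, h1, h2, Filter.mem_of_superset h3 fun T hT => ?_⟩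
  · show ‖(0 : Lp ℂ p μ →L[ℂ] Lp ℂ p μ)‖ ≤ 1
    rw [norm_zero]
    exact zero_le_one
  · exact Pool.Agent.Y280.hyp_of_goodH hT

end Pool.Agent.K4H43.TL.TypicalContractionsLp
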